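import Mathlib
import Pool.Agent.H39.WCAbs

set_option autoImplicit false
open Pool.Agent.H39.WC

namespace Pool.Agent.Results.MP_245269_an.NoPolynomialAsymptotics

/-- For every `n` there are a Banach space `B`, a bounded projection `P` with finite-dimensional
range and bounded operators `L0`, `L` (so that `L0 + lam • L` generates the operator group
`exp (t (L0 + lam • L))` for every `lam`) satisfying all hypotheses of the problem, such that for
no `t > 0` and no choice of the polynomial families the required asymptotics holds. Moreover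
`exp (t L0)` consists of isometries, the absolute integrability over `{t_k < ... < t_1 < t}` holds
for all orders `k ≤ 2 n + 1` (so for all `k ≤ n + 1`), and at every order the products are
absolutely integrable in the relative times. -/
theorem result (n : ℕ) :
    ∃ (B : Type) (_ : NormedAddCommGroup B) (_ : NormedSpace ℂ B) (_ : CompleteSpace B)
      (P L0 L : B →L[ℂ] B),
      Setting P L0 L ∧
      (∀ k : ℕ, 1 ≤ k → k ≤ 2 * n + 1 → IntegrableOrder P L0 L k) ∧
      (∀ k : ℕ, IntegrableRelative P L0 L k) ∧
      ∀ t : ℝ, 0 < t → ¬ HasPolyAsymptotics P L0 L (2 * n + 2) t := by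
  refine ⟨BB (2 * n + 1), inferInstance, inferInstance, inferInstance, PP _, LL0 _, LL _,
    ⟨PP_idem _, finiteDimensional_range_PP _, norm_sgrp_LL0 _, sgrp_PP _,
    PP_LL_PP _ (by omega)⟩, ?_, ?_, ?_⟩
  · intro k hk1 hk2 t
    exact abs_literal (PP _) (LL0 _) (LL _) (TT _) (2 * n + 1) (PQP_eq _) k hk1 hk2 t
  · intro k t
    exact abs_relative (PP _) (LL0 _) (LL _) (TT _) (2 * n + 1) (PQP_eq _) k t
  · rintro t ht ⟨a, b, G, R, hO⟩
    refine abs_no_asymp (PP (2 * n + 1)) (LL0 (2 * n + 1)) (LL (2 * n + 1))
      (finiteDimensional_range_PP _) (pr1 (2 * n + 1)) (e2 (2 * n + 1)) rfl n ?_ t ht a b G R hO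
    intro lam T
    rw [sgrp_e2, sgrp_LL0, PP_apply]
    rfl

end Pool.Agent.Results.MP_245269_an.NoPolynomialAsymptotics
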