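import Mathlib
import Pool.Agent.H91.WC.Mat
import Pool.Agent.H91.WC.NDefs

set_option autoImplicit false
open Pool.Agent.H39.WC

namespace Pool.Agent.Results.MP_245269_an.NonzeroProducts

/-- One finite-dimensional example which satisfies all hypotheses of the problem as they are worded, for every `n` at
once, with products of order two that do not vanish: the products `P L_{t_1} .. L_{t_k} P` of every order `k` are
absolutely integrable over `{t_k < .. < t_1 < t}` for every `t`, the product of order two is
`exp t_2 (cos (t_1 - t_2) - sin (t_1 - t_2)) E` with a fixed nonzero operator `E`, the products of the other orders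
vanish, and the reduced evolution is bounded by `1 + 2 lam^2` for all times; but for no `n ≥ 1` and no `t > 0` is there
an expansion with error `O(lam^(2 n + 2))`. -/
theorem result :
    ∃ (B : Type) (_ : NormedAddCommGroup B) (_ : NormedSpace ℂ B) (P L0 L E : B →L[ℂ] B),
      FiniteDimensional ℂ B ∧ H91.WC.WordedAllOrders P L0 L ∧ H91.WC.OnlySecondOrder P L0 L E ∧
      (∀ k : ℕ, IntegrableRelative P L0 L k) ∧ H91.WC.BoundedReduced P L0 L ∧
      ∀ n : ℕ, 1 ≤ n → ∀ t : ℝ, 0 < t → ¬ HasPolyAsymptotics P L0 L (2 * n + 2) t :=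
  ⟨H91.WC.M4, inferInstance, inferInstance, H91.WC.P4, H91.WC.D4, H91.WC.L4, H91.WC.E4, inferInstance,
    ⟨H91.WC.P4_idem, H91.WC.P4_comm, H91.WC.P4_off, H91.WC.order⟩, ⟨H91.WC.E4_ne, H91.WC.two, H91.WC.other⟩,
    H91.WC.relative, H91.WC.norm_red, H91.WC.no_asymp⟩

end Pool.Agent.Results.MP_245269_an.NonzeroProducts
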