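import Mathlib
import Pool.Agent.H39.WCDefsU
import Pool.Agent.H39.WCFriedD

set_option autoImplicit false
open Pool.Agent.H39.WC

namespace Pool.Agent.Results.MP_245269_an.UnitaryFriedrichs

/-- A Friedrichs model: on a Hilbert space there are a rank one orthogonal projection `P` and
bounded skew-adjoint operators `L0`, `L` (so all the groups `exp (t (L0 + lam L))` are unitary),
`exp (t L0)` commuting with `P`, `P L P = 0`, `(1 - P) L (1 - P) = 0`, such that the memory kernel
`‖P L_t L_s P‖` is integrable over `{s < t}`, and nevertheless for all small `t > 0` and every `n`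
there is no asymptotics of the required form with error `O(lam ^ (2 n + 2))`. -/
theorem result :
    ∃ (H : Type) (_ : NormedAddCommGroup H) (_ : InnerProductSpace ℂ H) (_ : CompleteSpace H)
      (P L0 L : H →L[ℂ] H),
      UnitarySetting P L0 L ∧ IntegrableRelative P L0 L 1 ∧
      ∃ t0 : ℝ, 0 < t0 ∧ ∀ t : ℝ, 0 < t → t < t0 → ∀ n : ℕ,
        ¬ HasPolyAsymptotics P L0 L (2 * n + 2) t := by
  obtain ⟨t0, ht0, hs⟩ := exists_small
  refine ⟨HH, inferInstance, inferInstance, inferInstance, Pe ee, mulL, Lc ee hh,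
    ⟨fried.setting, isSelfAdjoint_Pe ee, fried.finrank, fried.skew.adjoint,
    (isSkew_Lc ee hh).adjoint, fried.offQ⟩, fried.integrable, t0, ht0, ?_⟩
  intro t ht htt n h
  apply fried.no_asymp ht (hs t ht htt)
  obtain ⟨a, b, G, R, hO⟩ := h
  refine ⟨a, b, G, R, hO.trans ?_⟩
  have h0 : (fun z : ℝ => z ^ (2 * n + 2)) = fun z : ℝ => z ^ 2 * z ^ (2 * n) := by
    funext z; ring
  rw [h0]
  have h1 : (fun z : ℝ => z ^ (2 * n)) =O[nhds 0] (fun _ : ℝ => (1:ℝ)) :=
    ((continuous_pow (2 * n)).tendsto 0).isBigO_one ℝ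
  have h2 := (Asymptotics.isBigO_refl (fun z : ℝ => z ^ 2) (nhds 0)).mul h1
  simp only [mul_one] at h2
  exact h2.mono nhdsWithin_le_nhds

end Pool.Agent.Results.MP_245269_an.UnitaryFriedrichs
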